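import Mathlib
import Pool.Agent.H270R2.GEN.Defs

/-! ROOM GEN, task W2: structure of the first and second variation of a word. -/

set_option autoImplicit false

open scoped ComplexOrder Topology BoundedContinuousFunction
open Filter

noncomputable section

namespace Pool.Agent.H270G.T_W2

open Pool.Agent.H467F Pool.Agent.H735G Pool.Agent.H270G

variable {A : Type} [CStarAlgebra A] {τ : A →ₗ[ℂ] ℂ}

theorem norm_one_le : ‖(1 : A)‖ ≤ 1 := by
  rcases subsingleton_or_nontrivial A with h | h
  · rw [Subsingleton.elim (1 : A) 0, norm_zero]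
    exact zero_le_one
  · exact CStarRing.norm_one.le

theorem mul_le_one' {a b : A} (ha : ‖a‖ ≤ 1) (hb : ‖b‖ ≤ 1) : ‖a * b‖ ≤ 1 :=
  (norm_mul_le a b).trans (mul_le_one₀ ha (norm_nonneg _) hb)

theorem cl_le {c : Fin 4 → A} (hc : ∀ i, ‖c i‖ ≤ 1) (i : Fin 4) (e : Bool) : ‖cl c i e‖ ≤ 1 := by
  unfold cl
  split_ifs
  · exact hc i
  · rw [norm_star]; exact hc i

theorem wv_le {J : Type} {c : Fin 4 → A} (hc : ∀ i, ‖c i‖ ≤ 1) {y : J → A}
    (hy : ∀ j, ‖y j‖ ≤ 1) (L : List (Lt J)) : ‖wv c y L‖ ≤ 1 := by
  induction L with
  | nil => exact norm_one_le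
  | cons p L ih => exact mul_le_one' (mul_le_one' (cl_le hc _ _) (hy _)) ih

theorem wv_append {J : Type} (c : Fin 4 → A) (y : J → A) (L M : List (Lt J)) :
    wv c y (L ++ M) = wv c y L * wv c y M := by
  induction L with
  | nil => simp [wv]
  | cons p L ih =>
    show cl c p.1 p.2.1 * y p.2.2 * wv c y (L ++ M) = _
    rw [ih]
    simp only [wv, mul_assoc]

/-- the list of the terms of the first variation -/
def I1 {J : Type} (c : Fin 4 → A) (y : J → A) (i : Fin 4) : List (Lt J) → List (A × A)
  | [] => []
  | p :: L => (I1 c y i L).map (fun q => (cl c p.1 p.2.1 * y p.2.2 * q.1, q.2)) ++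
      (if p.1 = i then
        [if p.2.1 = true then (c i, y p.2.2 * wv c y L)
          else (-1, star (c i) * y p.2.2 * wv c y L)] else [])

/-- the list of the terms of the second variation -/
def I2 {J : Type} (c : Fin 4 → A) (y : J → A) (i : Fin 4) : List (Lt J) → List (A × A × A)
  | [] => []
  | p :: L => (I2 c y i L).map (fun q => (cl c p.1 p.2.1 * y p.2.2 * q.1, q.2.1, q.2.2)) ++
      (if p.1 = i then
        (I1 c y i L).map (fun q => if p.2.1 = true then (c i, y p.2.2 * q.1, q.2)
          else (-1, star (c i) * (y p.2.2 * q.1), q.2)) else [])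

theorem I1_length {J : Type} (c : Fin 4 → A) (y : J → A) (i : Fin 4) (L : List (Lt J)) :
    (I1 c y i L).length ≤ L.length := by
  induction L with
  | nil => simp [I1]
  | cons p L ih =>
    rw [I1, List.length_append, List.length_map, List.length_cons]
    split_ifs
    · simp only [List.length_singleton]; omega
    · simp only [List.length_singleton]; omega
    · simp only [List.length_nil]; omega

theorem I2_length {J : Type} (c : Fin 4 → A) (y : J → A) (i : Fin 4) (L : List (Lt J)) :
    (I2 c y i L).length ≤ L.length ^ 2 := by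
  induction L with
  | nil => simp [I2]
  | cons p L ih =>
    rw [I2, List.length_append, List.length_map, List.length_cons]
    have h1 := I1_length c y i L
    by_cases h2 : p.1 = i
    · rw [if_pos h2, List.length_map]; nlinarith
    · rw [if_neg h2, List.length_nil]
      nlinarith

theorem I1_norm {J : Type} {c : Fin 4 → A} (hc : ∀ i, ‖c i‖ ≤ 1) {y : J → A}
    (hy : ∀ j, ‖y j‖ ≤ 1) (i : Fin 4) (L : List (Lt J)) :
    ∀ p ∈ I1 c y i L, ‖p.1‖ ≤ 1 ∧ ‖p.2‖ ≤ 1 := by
  induction L with
  | nil => intro p hp; simp [I1] at hp
  | cons q L ih =>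
    intro p hp
    rw [I1, List.mem_append] at hp
    rcases hp with hp | hp
    · rw [List.mem_map] at hp
      obtain ⟨r, hr, rfl⟩ := hp
      exact ⟨mul_le_one' (mul_le_one' (cl_le hc _ _) (hy _)) (ih r hr).1, (ih r hr).2⟩
    · by_cases h1 : q.1 = i
      · rw [if_pos h1, List.mem_singleton] at hp
        subst hp
        by_cases h2 : q.2.1 = true
        · rw [if_pos h2]
          exact ⟨hc i, mul_le_one' (hy _) (wv_le hc hy L)⟩
        · rw [if_neg h2]
          refine ⟨?_, mul_le_one' (mul_le_one' ?_ (hy _)) (wv_le hc hy L)⟩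
          · show ‖(-1 : A)‖ ≤ 1
            rw [norm_neg]; exact norm_one_le
          · rw [norm_star]; exact hc i
      · rw [if_neg h1] at hp
        simp at hp

theorem I1_sum {J : Type} (c : Fin 4 → A) (y : J → A) (i : Fin 4) (V : A) (L : List (Lt J)) :
    D1 c y i V L = ((I1 c y i L).map fun p => p.1 * V * p.2).sum := by
  induction L with
  | nil => simp [D1, I1]
  | cons q L ih =>
    rw [D1, I1, List.map_append, List.sum_append, List.map_map, ih, ← List.sum_map_mul_left]
    congr 1
    · congr 1
      apply List.map_congr_left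
      intro p _
      simp only [Function.comp, mul_assoc]
    · by_cases h1 : q.1 = i
      · rw [if_pos h1, if_pos h1, List.map_singleton, List.sum_singleton]
        by_cases h2 : q.2.1 = true
        · rw [if_pos h2, if_pos h2]
          simp only [mul_assoc]
        · rw [if_neg h2, if_neg h2]
          simp only [mul_assoc, neg_mul, one_mul]
      · rw [if_neg h1, if_neg h1]
        simp

theorem I2_sum {J : Type} (c : Fin 4 → A) (y : J → A) (i : Fin 4) (V : A) (L : List (Lt J)) :
    D2 c y i V L = ((I2 c y i L).map fun p => p.1 * V * p.2.1 * V * p.2.2).sum := by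
  induction L with
  | nil => simp [D2, I2]
  | cons q L ih =>
    rw [D2, I2, List.map_append, List.sum_append, List.map_map, ih, ← List.sum_map_mul_left]
    congr 1
    · congr 1
      apply List.map_congr_left
      intro p _
      simp only [Function.comp, mul_assoc]
    · by_cases h1 : q.1 = i
      · rw [if_pos h1, if_pos h1, List.map_map, I1_sum]
        by_cases h2 : q.2.1 = true
        · rw [if_pos h2, ← List.sum_map_mul_left]
          congr 1
          apply List.map_congr_left
          intro p _
          simp only [Function.comp, if_pos h2, mul_assoc]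
        · rw [if_neg h2, ← List.sum_map_mul_left, ← neg_one_mul, ← List.sum_map_mul_left]
          congr 1
          apply List.map_congr_left
          intro p _
          simp only [Function.comp, if_neg h2, mul_assoc]
      · rw [if_neg h1, if_neg h1]
        simp

/-- W2a: structure of the first variation. -/
theorem ins1 {J : Type} (c : Fin 4 → A) (hc : ∀ i, ‖c i‖ ≤ 1) (y : J → A)
    (hy : ∀ j, ‖y j‖ ≤ 1) (i : Fin 4) (L : List (Lt J)) :
    ∃ l : List (A × A), l.length ≤ L.length ∧ (∀ p ∈ l, ‖p.1‖ ≤ 1 ∧ ‖p.2‖ ≤ 1) ∧
      ∀ V, D1 c y i V L = (l.map fun p => p.1 * V * p.2).sum :=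
  ⟨I1 c y i L, I1_length c y i L, I1_norm hc hy i L, fun V => I1_sum c y i V L⟩

theorem I1_form {J : Type} (c : Fin 4 → A) (y : J → A) (i : Fin 4) (L : List (Lt J)) :
    ∀ p ∈ I1 c y i L, ∃ (L1 L2 : List (Lt J)) (e : Bool) (j : J), L = L1 ++ (i, e, j) :: L2 ∧
      (e = true → p.1 = wv c y L1 * c i) ∧ (e = false → p.1 = -(wv c y L1)) := by
  induction L with
  | nil => intro p hp; simp [I1] at hp
  | cons q L ih =>
    intro p hp
    rw [I1, List.mem_append] at hp
    rcases hp with hp | hp
    · rw [List.mem_map] at hp
      obtain ⟨r, hr, rfl⟩ := hp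
      obtain ⟨L1, L2, e, j, h1, h2, h3⟩ := ih r hr
      refine ⟨q :: L1, L2, e, j, by rw [h1, List.cons_append], ?_, ?_⟩
      · intro he
        show cl c q.1 q.2.1 * y q.2.2 * r.1 = cl c q.1 q.2.1 * y q.2.2 * wv c y L1 * c i
        rw [h2 he, mul_assoc _ (wv c y L1)]
      · intro he
        show cl c q.1 q.2.1 * y q.2.2 * r.1 = -(cl c q.1 q.2.1 * y q.2.2 * wv c y L1)
        rw [h3 he, mul_neg]
    · by_cases h1 : q.1 = i
      · rw [if_pos h1, List.mem_singleton] at hp
        subst hp
        refine ⟨[], L, q.2.1, q.2.2, ?_, ?_, ?_⟩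
        · rw [List.nil_append, ← h1]
        · intro h2
          rw [if_pos h2]
          simp [wv]
        · intro h2
          rw [h2]
          simp [wv]
      · rw [if_neg h1] at hp
        simp at hp

theorem n2_neg (x : A) : n2 τ (-x) = n2 τ x := by
  unfold n2
  rw [star_neg, neg_mul_neg]

theorem EZ_neg (hE : EZP τ) (x : A) : EZ τ (-x) = -EZ τ x := by
  have h := hE.smul (-1) x
  rwa [neg_one_smul, neg_one_smul] at h

/-- W2b: structure of the second variation. -/
theorem ins2 (hE : EZP τ) {J : Type} (c : Fin 4 → unitary A) (y : J → A)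
    (hy : ∀ j, ‖y j‖ ≤ 1) (j1 : J) (hj1 : y j1 = 1) (i : Fin 4) (L : List (Lt J)) (hL : Red L) :
    ∃ l : List (A × A × A), l.length ≤ L.length ^ 2 ∧
      (∀ p ∈ l, ‖p.1‖ ≤ 1 ∧ ‖p.2.1‖ ≤ 1 ∧ ‖p.2.2‖ ≤ 1 ∧
        ∃ (j : J) (B : List (Lt J)), B ≠ [] ∧ B.length < L.length ∧ Red B ∧
          n2 τ (EZ τ p.2.1) = n2 τ (EZ τ (y j * wv (fun i => (c i : A)) y B))) ∧
      ∀ V, D2 (fun i => (c i : A)) y i V L =
        (l.map fun p => p.1 * V * p.2.1 * V * p.2.2).sum := by
  set cc : Fin 4 → A := fun i => (c i : A) with hcc
  have hc : ∀ i, ‖cc i‖ ≤ 1 := by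
    intro i
    rcases subsingleton_or_nontrivial A with h | h
    · rw [Subsingleton.elim (cc i) 0, norm_zero]
      exact zero_le_one
    · exact (CStarRing.norm_coe_unitary (c i)).le
  refine ⟨I2 cc y i L, I2_length cc y i L, ?_, fun V => I2_sum cc y i V L⟩
  induction L with
  | nil => intro p hp; simp [I2] at hp
  | cons q L ih =>
    intro p hp
    have hLr : Red L := List.IsChain.tail hL
    rw [I2, List.mem_append] at hp
    rcases hp with hp | hp
    · rw [List.mem_map] at hp
      obtain ⟨r, hr, rfl⟩ := hp
      obtain ⟨h1, h2, h3, j, B, h4, h5, h6, h7⟩ := ih hLr r hr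
      refine ⟨mul_le_one' (mul_le_one' (cl_le hc _ _) (hy _)) h1, h2, h3, j, B, h4, ?_, h6, h7⟩
      rw [List.length_cons]
      omega
    · by_cases hq1 : q.1 = i
      · rw [if_pos hq1, List.mem_map] at hp
        obtain ⟨r, hr, hrp⟩ := hp
        have hrn := I1_norm hc hy i L r hr
        obtain ⟨L1, L2, e', j', hdec, ht, hf⟩ := I1_form cc y i L r hr
        obtain ⟨q1, e, j⟩ := q
        simp only at hq1 hrp
        subst hq1
        -- facts on the reduced word
        have hR := hL
        rw [hdec] at hR
        have hR2 : Red (((q1, e, j) : Lt J) :: L1) ∧ Red (((q1, e', j') : Lt J) :: L2) ∧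
            (∀ x ∈ (((q1, e, j) : Lt J) :: L1).getLast?,
              ¬ (x.1 = q1 ∧ x.2.1 ≠ e')) := by
          have hR3 : List.IsChain (fun a b : Lt J => ¬ (a.1 = b.1 ∧ a.2.1 ≠ b.2.1))
              ((((q1, e, j) : Lt J) :: L1) ++ (((q1, e', j') : Lt J) :: L2)) := by
            rw [List.cons_append]
            exact hR
          rw [List.isChain_append] at hR3
          refine ⟨hR3.1, hR3.2.1, ?_⟩
          intro x hx
          exact hR3.2.2 x hx (q1, e', j') (by simp)
        obtain ⟨hRa, hRb, hRc⟩ := hR2
        have hL1 : Red L1 := List.IsChain.tail hRa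
        have hlen : L.length = L1.length + (L2.length + 1) := by
          rw [hdec, List.length_append, List.length_cons]
        -- if the signs differ then the middle part is nonempty
        have hne : e ≠ e' → L1 ≠ [] := by
          intro hee h0
          subst h0
          exact hRc (q1, e, j) (by simp) ⟨rfl, hee⟩
        cases e with
        | true =>
          rw [if_pos rfl] at hrp
          subst hrp
          refine ⟨hc _, mul_le_one' (hy _) hrn.1, hrn.2, j, ?_⟩
          cases e' with
          | true =>
            refine ⟨L1 ++ [(q1, true, j1)], by simp, ?_, ?_, ?_⟩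
            · simp only [List.length_append, List.length_cons, List.length_nil]
              omega
            · have hRd : List.IsChain (fun a b : Lt J => ¬ (a.1 = b.1 ∧ a.2.1 ≠ b.2.1))
                  (L1 ++ [((q1, true, j1) : Lt J)]) := by
                rw [List.isChain_append]
                refine ⟨hL1, by simp, ?_⟩
                intro x hx z hz
                have hz' : z = (q1, true, j1) := by simpa using hz.symm
                subst hz'
                refine hRc x ?_
                rcases L1 with _ | ⟨a, L1⟩
                · simp at hx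
                · rw [List.getLast?_cons_cons]
                  exact hx
              exact hRd
            · show n2 τ (EZ τ (y j * r.1)) = _
              rw [ht rfl, wv_append]
              simp [wv, cl, hj1, hcc]
          | false =>
            refine ⟨L1, hne (by simp), ?_, hL1, ?_⟩
            · rw [List.length_cons, hlen]
              omega
            · show n2 τ (EZ τ (y j * r.1)) = _
              rw [hf rfl, mul_neg, EZ_neg hE, n2_neg]
        | false =>
          rw [if_neg (by simp)] at hrp
          subst hrp
          refine ⟨?_, mul_le_one' ?_ (mul_le_one' (hy _) hrn.1), hrn.2, ?_⟩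
          · show ‖(-1 : A)‖ ≤ 1
            rw [norm_neg]; exact norm_one_le
          · rw [norm_star]; exact hc _
          cases e' with
          | true =>
            refine ⟨j, L1, hne (by simp), ?_, hL1, ?_⟩
            · rw [List.length_cons, hlen]
              omega
            · show n2 τ (EZ τ (star (cc q1) * (y j * r.1))) = _
              rw [ht rfl]
              have h1 := hE.conj (star (c q1)) (y j * wv cc y L1)
              rw [Unitary.coe_star, star_star] at h1
              rw [← h1]
              simp only [hcc, mul_assoc]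
          | false =>
            refine ⟨j1, ((q1, false, j) : Lt J) :: L1, by simp, ?_, hRa, ?_⟩
            · rw [List.length_cons, List.length_cons, hlen]
              omega
            · show n2 τ (EZ τ (star (cc q1) * (y j * r.1))) = _
              rw [hf rfl, mul_neg, mul_neg, EZ_neg hE, n2_neg, hj1, one_mul]
              simp only [wv, cl, mul_assoc]
              simp
      · rw [if_neg hq1] at hp
        simp at hp

end Pool.Agent.H270G.T_W2
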